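import Mathlib

/-!
# A Pauli set of functions with bounded support which is a Cantor set

The problem asks whether every Pauli set in `L²(ℝ)` whose elements all have bounded support is
discrete (and hence countable). The answer is no: we construct a Pauli set `P` of functions of
modulus one on `[0,1)` and zero elsewhere which, with the `L²` norm topology, is homeomorphic to
the Cantor space `{0,1}^ℕ`. So no point of `P` is isolated and `P` is uncountable.

Construction. For a summable real sequence `c` let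
`G_c(x) = exp(i ∑ₙ cₙ χ(3ⁿ x))`, where `χ` is the `1`-periodic indicator function of `[1/3,2/3)`
(so `χ(3ⁿ x) = 1` exactly when the `(n+1)`-st ternary digit of `x ∈ [0,1)` is `1`), and let `F_c` be
`G_c` on `[0,1)` and `0` elsewhere. The Fourier transform satisfies
`|F̂_c(ξ)| = (1/3) |exp(i c₀) + 2 cos(2πξ/3)| |F̂_{Sc}(ξ/3)|`, `S` the shift, hence it depends only on
`|cₙ|`. Taking `cₙ = ± 2^{-(n+1)}` with all choices of signs gives the Pauli set.
-/

open MeasureTheory FourierTransform Filter Topology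
open scoped ENNReal

namespace Pool.Agent.Results.MP_d886ff_an.CantorPauliSet

/-- The complex Hilbert space `L²(ℝ)` with respect to Lebesgue measure. -/
abbrev L2R : Type := Lp ℂ 2 (volume : Measure ℝ)

/-- A **Pauli pair**: two linearly independent elements `f, g` of `L²(ℝ)` with `|f| = |g|` almost
everywhere and `|f̂| = |ĝ|` almost everywhere. Here `𝓕` is the (Plancherel) Fourier transform on
`L²(ℝ)` of Mathlib, which for integrable `f` is `ξ ↦ ∫ exp(-2πixξ) f(x) dx`; it differs from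
`x ↦ ∫ exp(-ixy) f(y) dy` only by the dilation `ξ ↦ 2πξ` of the variable, which does not affect the
condition `|f̂| = |ĝ|` almost everywhere. -/
def IsPauliPair (f g : L2R) : Prop :=
  LinearIndependent ℂ ![f, g] ∧
    (∀ᵐ x : ℝ, ‖f x‖ = ‖g x‖) ∧
    (∀ᵐ ξ : ℝ, ‖(𝓕 f : L2R) ξ‖ = ‖(𝓕 g : L2R) ξ‖)

/-- A **Pauli set**: a subset of `L²(ℝ)` with at least two elements, any two distinct elements of
which form a Pauli pair. -/
def IsPauliSet (P : Set L2R) : Prop :=
  P.Nontrivial ∧ P.Pairwise IsPauliPair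

/-- `f` has **bounded support**: it vanishes almost everywhere outside a bounded interval. -/
def HasBoundedSupport (f : L2R) : Prop :=
  ∃ R : ℝ, ∀ᵐ x : ℝ, R < |x| → f x = 0

/-- The `1`-periodic indicator function of the middle third `[1/3, 2/3)`. -/
noncomputable def chi (y : ℝ) : ℝ := if (1/3 : ℝ) ≤ Int.fract y ∧ Int.fract y < 2/3 then 1 else 0

/-- the phase `∑ c_n χ(3^n x)`. -/
noncomputable def phase (c : ℕ → ℝ) (x : ℝ) : ℝ := ∑' n, c n * chi (3 ^ n * x)

noncomputable def G (c : ℕ → ℝ) (x : ℝ) : ℂ := Complex.exp (Complex.I * phase c x)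

/-- the integrand of the Fourier integral. -/
noncomputable def K (c : ℕ → ℝ) (ξ x : ℝ) : ℂ :=
  Complex.exp (-(2 * Real.pi * Complex.I * ξ * x)) * G c x

noncomputable def H (c : ℕ → ℝ) (ξ : ℝ) : ℂ := ∫ x in (0:ℝ)..1, K c ξ x

def sh (c : ℕ → ℝ) : ℕ → ℝ := fun n => c (n + 1)

lemma chi_nonneg (y : ℝ) : 0 ≤ chi y := by unfold chi; split_ifs <;> norm_num
lemma chi_le_one (y : ℝ) : chi y ≤ 1 := by unfold chi; split_ifs <;> norm_num
lemma chi_add_int (y : ℝ) (m : ℤ) : chi (y + m) = chi y := by unfold chi; simp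
lemma chi_abs (y : ℝ) : |chi y| ≤ 1 := by
  rw [abs_of_nonneg (chi_nonneg y)]; exact chi_le_one y

lemma measurable_chi : Measurable chi := by
  unfold chi
  apply Measurable.ite
  · exact (measurableSet_le measurable_const measurable_fract).inter
      (measurableSet_lt measurable_fract measurable_const)
  · exact measurable_const
  · exact measurable_const

lemma summable_phase {c : ℕ → ℝ} (hc : Summable fun n => |c n|) (x : ℝ) :
    Summable fun n => c n * chi (3 ^ n * x) := by
  apply Summable.of_norm_bounded hc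
  intro n
  rw [norm_mul, Real.norm_eq_abs, Real.norm_eq_abs]
  calc |c n| * |chi (3 ^ n * x)| ≤ |c n| * 1 := by gcongr; exact chi_abs _
    _ = |c n| := mul_one _

lemma summable_sh {c : ℕ → ℝ} (hc : Summable fun n => |c n|) : Summable fun n => |sh c n| :=
  (summable_nat_add_iff (f := fun n => |c n|) 1).2 hc

lemma measurable_phase {c : ℕ → ℝ} (hc : Summable fun n => |c n|) : Measurable (phase c) := by
  unfold phase
  have : ∀ x, HasSum (fun n => c n * chi (3 ^ n * x)) (∑' n, c n * chi (3 ^ n * x)) :=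
    fun x => (summable_phase hc x).hasSum
  apply measurable_of_tendsto_metrizable (f := fun N x => ∑ n ∈ Finset.range N, c n * chi (3 ^ n * x))
  · intro N
    refine Finset.measurable_fun_sum _ fun n _ => ?_
    exact (measurable_chi.comp (measurable_const.mul measurable_id)).const_mul _
  · rw [tendsto_pi_nhds]
    intro x
    exact (this x).tendsto_sum_nat

lemma measurable_G {c : ℕ → ℝ} (hc : Summable fun n => |c n|) : Measurable (G c) := by
  unfold G
  have := measurable_phase hc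
  fun_prop

lemma norm_G (c : ℕ → ℝ) (x : ℝ) : ‖G c x‖ = 1 := by
  unfold G
  rw [mul_comm, Complex.norm_exp_ofReal_mul_I]

lemma phase_add_int (c : ℕ → ℝ) (x : ℝ) (m : ℤ) : phase c (x + m) = phase c x := by
  unfold phase
  congr 1
  ext n
  have : (3:ℝ) ^ n * (x + m) = 3 ^ n * x + ((3 ^ n * m : ℤ) : ℝ) := by push_cast; ring
  rw [this, chi_add_int]

lemma phase_eq {c : ℕ → ℝ} (hc : Summable fun n => |c n|) (x : ℝ) :
    phase c x = c 0 * chi x + phase (sh c) (3 * x) := by
  unfold phase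
  rw [(summable_phase hc x).tsum_eq_zero_add]
  simp only [pow_zero, one_mul, sh]
  congr 2
  ext n
  rw [pow_succ, mul_assoc]

lemma norm_K (c : ℕ → ℝ) (ξ x : ℝ) : ‖K c ξ x‖ = 1 := by
  unfold K
  rw [norm_mul, norm_G, mul_one]
  have : -(2 * (Real.pi:ℂ) * Complex.I * ξ * x) = ((-(2 * Real.pi * ξ * x) : ℝ) : ℂ) * Complex.I := by
    push_cast; ring
  rw [this, Complex.norm_exp_ofReal_mul_I]

lemma measurable_K {c : ℕ → ℝ} (hc : Summable fun n => |c n|) (ξ : ℝ) : Measurable (K c ξ) := by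
  unfold K
  have := measurable_G hc
  fun_prop

lemma intervalIntegrable_K {c : ℕ → ℝ} (hc : Summable fun n => |c n|) (ξ a b : ℝ) :
    IntervalIntegrable (K c ξ) volume a b := by
  apply (intervalIntegrable_const (c := (1:ℝ))).mono_fun (measurable_K hc ξ).aestronglyMeasurable
  filter_upwards with x
  rw [norm_K]; simp

/-- self-similarity of the integrand, piece `j`. -/
lemma K_piece {c : ℕ → ℝ} (hc : Summable fun n => |c n|) (ξ : ℝ) (j : ℕ) (hj : j < 3) {x : ℝ}
    (hx : x ∈ Set.Ioo ((j:ℝ)/3) (((j:ℝ)+1)/3)) :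
    K c ξ x = (Complex.exp (Complex.I * ((c 0 * (if j = 1 then 1 else 0) : ℝ) : ℂ)) *
      Complex.exp (-(2 * Real.pi * Complex.I * ξ * (j / 3)))) * K (sh c) (ξ / 3) (3 * x - j) := by
  have hchi : chi x = if j = 1 then 1 else 0 := by
    obtain ⟨hx1, hx2⟩ := hx
    have hfr : Int.fract x = x := by
      apply Int.fract_eq_self.2
      constructor
      · have : (0:ℝ) ≤ (j:ℝ)/3 := by positivity
        linarith
      · have : (j:ℝ) + 1 ≤ 3 := by exact_mod_cast hj
        linarith
    unfold chi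
    rw [hfr]
    interval_cases j
    · norm_num at hx1 hx2 ⊢
      intro h; linarith
    · norm_num at hx1 hx2 ⊢
      exact ⟨hx1.le, hx2⟩
    · norm_num at hx1 hx2 ⊢
      intro h; linarith
  have hG : G c x = Complex.exp (Complex.I * ((c 0 * (if j = 1 then 1 else 0) : ℝ) : ℂ)) *
      G (sh c) (3 * x - j) := by
    unfold G
    rw [phase_eq hc, hchi, ← Complex.exp_add]
    have : phase (sh c) (3 * x - j) = phase (sh c) (3 * x) := by
      have := phase_add_int (sh c) (3 * x - j) j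
      rw [← this]; congr 1; push_cast; ring
    rw [this]
    congr 1
    push_cast
    ring
  unfold K
  rw [hG]
  have : Complex.exp (-(2 * Real.pi * Complex.I * ξ * x)) =
      Complex.exp (-(2 * Real.pi * Complex.I * ξ * (j / 3))) *
      Complex.exp (-(2 * Real.pi * Complex.I * (ξ / 3 : ℝ) * (3 * x - j : ℝ))) := by
    rw [← Complex.exp_add]
    congr 1
    push_cast
    ring
  rw [this]
  ring

lemma H_piece {c : ℕ → ℝ} (hc : Summable fun n => |c n|) (ξ : ℝ) (j : ℕ) (hj : j < 3) :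
    ∫ x in ((j:ℝ)/3)..(((j:ℝ)+1)/3), K c ξ x =
      (1/3 : ℂ) * ((Complex.exp (Complex.I * ((c 0 * (if j = 1 then 1 else 0) : ℝ) : ℂ)) *
      Complex.exp (-(2 * Real.pi * Complex.I * ξ * (j / 3)))) * H (sh c) (ξ / 3)) := by
  rw [intervalIntegral.integral_congr_Ioo_of_le (by linarith)
    (fun x hx => K_piece hc ξ j hj hx)]
  rw [intervalIntegral.integral_const_mul]
  rw [intervalIntegral.integral_comp_mul_sub (K (sh c) (ξ / 3)) (by norm_num : (3:ℝ) ≠ 0)]
  have h1 : (3:ℝ) * ((j:ℝ)/3) - j = 0 := by ring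
  have h2 : (3:ℝ) * (((j:ℝ) + 1)/3) - j = 1 := by ring
  rw [h1, h2]
  unfold H
  rw [Complex.real_smul]
  push_cast
  ring

lemma H_rec {c : ℕ → ℝ} (hc : Summable fun n => |c n|) (ξ : ℝ) :
    H c ξ = (1/3 : ℂ) * (1 + Complex.exp (Complex.I * (c 0 : ℂ)) *
      Complex.exp (-(2 * Real.pi * Complex.I * ξ * (1 / 3))) +
      Complex.exp (-(2 * Real.pi * Complex.I * ξ * (2 / 3)))) * H (sh c) (ξ / 3) := by
  have h0 := H_piece hc ξ 0 (by norm_num)
  have h1 := H_piece hc ξ 1 (by norm_num)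
  have h2 := H_piece hc ξ 2 (by norm_num)
  have hsum : H c ξ = (∫ x in (((0:ℕ):ℝ)/3)..((((0:ℕ):ℝ)+1)/3), K c ξ x) +
      (∫ x in (((1:ℕ):ℝ)/3)..((((1:ℕ):ℝ)+1)/3), K c ξ x) +
      (∫ x in (((2:ℕ):ℝ)/3)..((((2:ℕ):ℝ)+1)/3), K c ξ x) := by
    have e1 : (((0:ℕ):ℝ)+1)/3 = ((1:ℕ):ℝ)/3 := by norm_num
    have e2 : (((1:ℕ):ℝ)+1)/3 = ((2:ℕ):ℝ)/3 := by norm_num
    have e3 : (((2:ℕ):ℝ)+1)/3 = 1 := by norm_num
    have e0 : (((0:ℕ):ℝ))/3 = 0 := by norm_num
    rw [e0, e1, e2, e3]
    rw [intervalIntegral.integral_add_adjacent_intervals (intervalIntegrable_K hc _ _ _)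
      (intervalIntegrable_K hc _ _ _), intervalIntegral.integral_add_adjacent_intervals
      (intervalIntegrable_K hc _ _ _) (intervalIntegrable_K hc _ _ _)]
    rfl
  rw [hsum, h0, h1, h2]
  simp
  ring

lemma norm_H_rec {c : ℕ → ℝ} (hc : Summable fun n => |c n|) (ξ : ℝ) :
    ‖H c ξ‖ = (1/3) * ‖Complex.exp (Complex.I * (c 0 : ℂ)) + (2 * Real.cos (2 * Real.pi * ξ / 3) : ℝ)‖ *
      ‖H (sh c) (ξ / 3)‖ := by
  rw [H_rec hc ξ, norm_mul, norm_mul]
  have key : (1 + Complex.exp (Complex.I * (c 0 : ℂ)) *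
      Complex.exp (-(2 * Real.pi * Complex.I * ξ * (1 / 3))) +
      Complex.exp (-(2 * Real.pi * Complex.I * ξ * (2 / 3)))) =
      Complex.exp (((-(2 * Real.pi * ξ / 3) : ℝ) : ℂ) * Complex.I) *
      (Complex.exp (Complex.I * (c 0 : ℂ)) + (2 * Real.cos (2 * Real.pi * ξ / 3) : ℝ)) := by
    push_cast
    rw [Complex.two_cos, mul_add, mul_add, ← Complex.exp_add, ← Complex.exp_add, ← Complex.exp_add,
      ← Complex.exp_add]
    have e1 : (-(2 * (Real.pi:ℂ) * ξ / 3) * Complex.I + 2 * Real.pi * ξ / 3 * Complex.I) = 0 := by ring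
    rw [e1, Complex.exp_zero]
    have e2 : (-(2 * (Real.pi:ℂ) * ξ / 3) * Complex.I + -(2 * Real.pi * ξ / 3) * Complex.I) =
      (-(2 * Real.pi * Complex.I * ξ * (2 / 3))) := by ring
    rw [e2]
    have e3 : Complex.I * (c 0 : ℂ) + -(2 * Real.pi * Complex.I * ξ * (1 / 3)) =
      -(2 * (Real.pi:ℂ) * ξ / 3) * Complex.I + Complex.I * (c 0) := by ring
    rw [e3]
    ring
  rw [key, norm_mul, Complex.norm_exp_ofReal_mul_I, one_mul]
  norm_num



lemma factor_neg (θ r : ℝ) : ‖Complex.exp (Complex.I * ((-θ : ℝ) : ℂ)) + (r : ℂ)‖ =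
    ‖Complex.exp (Complex.I * (θ : ℂ)) + (r : ℂ)‖ := by
  have : Complex.exp (Complex.I * ((-θ : ℝ) : ℂ)) + (r : ℂ) =
      (starRingEnd ℂ) (Complex.exp (Complex.I * (θ : ℂ)) + (r : ℂ)) := by
    rw [map_add, ← Complex.exp_conj]
    simp
  rw [this, Complex.norm_conj]

lemma factor_le (θ η : ℝ) :
    (1/3) * ‖Complex.exp (Complex.I * (θ : ℂ)) + (2 * Real.cos η : ℝ)‖ ≤ 1 := by
  have h1 : ‖Complex.exp (Complex.I * (θ : ℂ)) + (2 * Real.cos η : ℝ)‖ ≤ 1 + 2 := by
    refine (norm_add_le _ _).trans ?_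
    apply add_le_add
    · rw [mul_comm, Complex.norm_exp_ofReal_mul_I]
    · rw [Complex.norm_real, norm_mul]
      have := Real.abs_cos_le_one η
      rw [Real.norm_eq_abs, Real.norm_eq_abs]
      norm_num
      linarith
  linarith

lemma factor_eq_of_abs {θ θ' : ℝ} (h : |θ| = |θ'|) (r : ℝ) :
    ‖Complex.exp (Complex.I * (θ : ℂ)) + (r : ℂ)‖ = ‖Complex.exp (Complex.I * (θ' : ℂ)) + (r : ℂ)‖ := by
  rcases abs_eq_abs.1 h with h | h
  · rw [h]
  · rw [h, factor_neg]

lemma norm_exp_sub_le (a b : ℝ) :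
    ‖Complex.exp (Complex.I * (a:ℂ)) - Complex.exp (Complex.I * (b:ℂ))‖ ≤ |a - b| := by
  have : Complex.exp (Complex.I * (a:ℂ)) - Complex.exp (Complex.I * (b:ℂ)) =
      Complex.exp (Complex.I * (b:ℂ)) * (Complex.exp (Complex.I * ((a - b : ℝ) : ℂ)) - 1) := by
    rw [mul_sub, ← Complex.exp_add, mul_one]
    congr 2
    push_cast; ring
  rw [this, norm_mul, mul_comm Complex.I (b:ℂ), Complex.norm_exp_ofReal_mul_I, one_mul]
  exact Real.norm_exp_I_mul_ofReal_sub_one_le

lemma summable_sub {c c' : ℕ → ℝ} (hc : Summable fun n => |c n|) (hc' : Summable fun n => |c' n|) :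
    Summable fun n => |c n - c' n| := by
  refine Summable.of_nonneg_of_le (fun n => abs_nonneg _) (fun n => abs_sub _ _) (hc.add hc')

lemma norm_G_sub_le {c c' : ℕ → ℝ} (hc : Summable fun n => |c n|) (hc' : Summable fun n => |c' n|)
    (x : ℝ) : ‖G c x - G c' x‖ ≤ ∑' n, |c n - c' n| := by
  unfold G
  refine (norm_exp_sub_le _ _).trans ?_
  unfold phase
  rw [← (summable_phase hc x).tsum_sub (summable_phase hc' x)]
  rw [← Real.norm_eq_abs]
  refine tsum_of_norm_bounded (summable_sub hc hc').hasSum fun n => ?_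
  rw [← sub_mul, norm_mul, Real.norm_eq_abs, Real.norm_eq_abs]
  calc |c n - c' n| * |chi (3 ^ n * x)| ≤ |c n - c' n| * 1 := by gcongr; exact chi_abs _
    _ = _ := mul_one _

lemma norm_H_sub_le {c c' : ℕ → ℝ} (hc : Summable fun n => |c n|) (hc' : Summable fun n => |c' n|)
    (ξ : ℝ) : ‖H c ξ - H c' ξ‖ ≤ ∑' n, |c n - c' n| := by
  unfold H
  rw [← intervalIntegral.integral_sub (intervalIntegrable_K hc _ _ _) (intervalIntegrable_K hc' _ _ _)]
  have := intervalIntegral.norm_integral_le_of_norm_le_const (a := (0:ℝ)) (b := 1)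
    (f := fun x => K c ξ x - K c' ξ x) (C := ∑' n, |c n - c' n|) (fun x _ => ?_)
  · simpa using this
  · unfold K
    rw [← mul_sub, norm_mul]
    have h1 : ‖Complex.exp (-(2 * Real.pi * Complex.I * ξ * x))‖ = 1 := by
      have : -(2 * (Real.pi:ℂ) * Complex.I * ξ * x) = ((-(2 * Real.pi * ξ * x) : ℝ) : ℂ) * Complex.I := by
        push_cast; ring
      rw [this, Complex.norm_exp_ofReal_mul_I]
    rw [h1, one_mul]
    exact norm_G_sub_le hc hc' x

lemma norm_H_le_one {c : ℕ → ℝ} (ξ : ℝ) : ‖H c ξ‖ ≤ 1 := by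
  unfold H
  have := intervalIntegral.norm_integral_le_of_norm_le_const (a := (0:ℝ)) (b := 1)
    (f := fun x => K c ξ x) (C := 1) (fun x _ => (norm_K c ξ x).le)
  simpa using this

/-- iterated shift. -/
def shN (c : ℕ → ℝ) (N : ℕ) : ℕ → ℝ := fun n => c (n + N)

lemma summable_shN {c : ℕ → ℝ} (hc : Summable fun n => |c n|) (N : ℕ) :
    Summable fun n => |shN c N n| :=
  (summable_nat_add_iff (f := fun n => |c n|) N).2 hc

lemma abs_norm_H_sub_le {c c' : ℕ → ℝ} (hc : Summable fun n => |c n|)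
    (hc' : Summable fun n => |c' n|) (h : ∀ n, |c n| = |c' n|) (ξ : ℝ) (N : ℕ) :
    |‖H c ξ‖ - ‖H c' ξ‖| ≤ |‖H (shN c N) (ξ / 3 ^ N)‖ - ‖H (shN c' N) (ξ / 3 ^ N)‖| := by
  induction N with
  | zero =>
    have e : ∀ c : ℕ → ℝ, shN c 0 = c := fun c => rfl
    simp [e]
  | succ N ih =>
    refine ih.trans ?_
    rw [norm_H_rec (summable_shN hc N), norm_H_rec (summable_shN hc' N)]
    have e1 : |shN c N 0| = |shN c' N 0| := h _
    rw [factor_eq_of_abs e1, ← mul_sub, abs_mul]
    have hs : sh (shN c N) = shN c (N + 1) := by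
      funext n; simp only [sh, shN]; congr 1; ring
    have hs' : sh (shN c' N) = shN c' (N + 1) := by
      funext n; simp only [sh, shN]; congr 1; ring
    have e3 : ξ / 3 ^ N / 3 = ξ / 3 ^ (N + 1) := by rw [pow_succ]; field_simp
    rw [hs, hs', e3]
    have hf := factor_le (shN c' N 0) (2 * Real.pi * (ξ / 3 ^ N) / 3)
    have hf0 : 0 ≤ (1/3) * ‖Complex.exp (Complex.I * (shN c' N 0 : ℂ)) +
      (2 * Real.cos (2 * Real.pi * (ξ / 3 ^ N) / 3) : ℝ)‖ := by positivity
    rw [abs_of_nonneg hf0]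
    exact mul_le_of_le_one_left (abs_nonneg _) hf

lemma norm_H_eq {c c' : ℕ → ℝ} (hc : Summable fun n => |c n|)
    (hc' : Summable fun n => |c' n|) (h : ∀ n, |c n| = |c' n|) (ξ : ℝ) :
    ‖H c ξ‖ = ‖H c' ξ‖ := by
  have hlim : Tendsto (fun N => ∑' n, |c (n + N) - c' (n + N)|) atTop (𝓝 0) :=
    tendsto_sum_nat_add (fun n => |c n - c' n|)
  have hle : ∀ N, |‖H c ξ‖ - ‖H c' ξ‖| ≤ ∑' n, |c (n + N) - c' (n + N)| := by
    intro N
    refine (abs_norm_H_sub_le hc hc' h ξ N).trans ?_
    refine (abs_norm_sub_norm_le _ _).trans ?_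
    exact norm_H_sub_le (summable_shN hc N) (summable_shN hc' N) _
  have : |‖H c ξ‖ - ‖H c' ξ‖| ≤ 0 := ge_of_tendsto' hlim hle
  have := abs_nonpos_iff.1 this
  linarith

/-- strict inequality at frequency zero. -/
lemma norm_H_zero_lt {c : ℕ → ℝ} (hc : Summable fun n => |c n|) (k : ℕ)
    (hk : Complex.exp (Complex.I * (c k : ℂ)) ≠ 1) : ‖H c 0‖ < 1 := by
  induction k generalizing c with
  | zero =>
    rw [norm_H_rec hc]
    simp only [mul_zero, zero_div, Real.cos_zero, mul_one]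
    have h1 : ‖Complex.exp (Complex.I * (c 0 : ℂ)) + ((2:ℝ):ℂ)‖ < 3 := by
      have hn : ‖Complex.exp (Complex.I * (c 0 : ℂ))‖ = 1 := by
        rw [mul_comm, Complex.norm_exp_ofReal_mul_I]
      set z := Complex.exp (Complex.I * (c 0 : ℂ)) with hz
      have hle : ‖z + ((2:ℝ):ℂ)‖ ≤ 3 := by
        refine (norm_add_le _ _).trans ?_
        rw [hn, Complex.norm_real]; norm_num
      rcases hle.lt_or_eq with h | h
      · exact h
      · exfalso
        apply hk
        have h2 : Complex.normSq (z + ((2:ℝ):ℂ)) = 9 := by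
          rw [Complex.normSq_eq_norm_sq, h]; norm_num
        have h3 : Complex.normSq z = 1 := by rw [Complex.normSq_eq_norm_sq, hn]; norm_num
        rw [Complex.normSq_apply] at h2 h3
        simp at h2
        have hre : z.re = 1 := by nlinarith
        have him : z.im = 0 := by nlinarith
        apply Complex.ext <;> simp [hre, him]
    have h2 := norm_H_le_one (c := sh c) 0
    have h3 := norm_nonneg (H (sh c) 0)
    have h4 := norm_nonneg (Complex.exp (Complex.I * (c 0 : ℂ)) + ((2:ℝ):ℂ))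
    nlinarith
  | succ k ih =>
    have := ih (c := sh c) (summable_sh hc) hk
    rw [norm_H_rec hc]
    have hf := factor_le (c 0) (2 * Real.pi * 0 / 3)
    simp only [zero_div]
    have hf0 : 0 ≤ (1/3) * ‖Complex.exp (Complex.I * (c 0 : ℂ)) +
      (2 * Real.cos (2 * Real.pi * 0 / 3) : ℝ)‖ := by positivity
    calc _ ≤ 1 * ‖H (sh c) 0‖ := by gcongr
      _ < 1 := by rw [one_mul]; exact this


/-- The function supported on `[0,1)`. -/
noncomputable def F (c : ℕ → ℝ) : ℝ → ℂ := (Set.Ico (0:ℝ) 1).indicator (G c)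

lemma measurable_F {c : ℕ → ℝ} (hc : Summable fun n => |c n|) : Measurable (F c) :=
  (measurable_G hc).indicator measurableSet_Ico

lemma memLp_F {c : ℕ → ℝ} (hc : Summable fun n => |c n|) (p : ℝ≥0∞) : MemLp (F c) p volume := by
  have h1 : MemLp ((Set.Ico (0:ℝ) 1).indicator fun _ => (1:ℂ)) p volume :=
    memLp_indicator_const p measurableSet_Ico 1 (Or.inr (by simp))
  refine h1.of_le (measurable_F hc).aestronglyMeasurable ?_
  filter_upwards with x
  unfold F
  by_cases hx : x ∈ Set.Ico (0:ℝ) 1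
  · rw [Set.indicator_of_mem hx, Set.indicator_of_mem hx, norm_G]; simp
  · rw [Set.indicator_of_notMem hx, Set.indicator_of_notMem hx]

noncomputable def FL {c : ℕ → ℝ} (hc : Summable fun n => |c n|) : L2R := (memLp_F hc 2).toLp (F c)

lemma fourier_F {c : ℕ → ℝ} (ξ : ℝ) :
    𝓕 (F c) ξ = H c ξ := by
  rw [Real.fourier_real_eq_integral_exp_smul]
  unfold H
  rw [intervalIntegral.integral_of_le zero_le_one, ← integral_Ico_eq_integral_Ioc,
    ← integral_indicator measurableSet_Ico]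
  apply integral_congr_ae
  filter_upwards with x
  unfold F K
  by_cases hx : x ∈ Set.Ico (0:ℝ) 1
  · rw [Set.indicator_of_mem hx, Set.indicator_of_mem hx, smul_eq_mul]
    congr 2
    push_cast; ring
  · rw [Set.indicator_of_notMem hx, Set.indicator_of_notMem hx, smul_zero]

/-- The L² Fourier transform agrees a.e. with the Fourier integral for functions in L¹ ∩ L². -/
theorem fourier_toLp_ae {f : ℝ → ℂ} (h1 : Integrable f) (h2 : MemLp f 2) :
    (((𝓕 (h2.toLp f : L2R)) : L2R) : ℝ → ℂ) =ᵐ[volume] (𝓕 f : ℝ → ℂ) := by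
  have hcont : Continuous (𝓕 f : ℝ → ℂ) :=
    VectorFourier.fourierIntegral_continuous Real.continuous_fourierChar
      continuous_inner h1
  apply ae_eq_of_integral_contDiff_smul_eq
  · exact (Lp.memLp (𝓕 (h2.toLp f : L2R) : L2R)).locallyIntegrable (by norm_num)
  · exact hcont.locallyIntegrable
  · intro g g_smooth g_cpt
    have hg₁ : HasCompactSupport (Complex.ofRealCLM ∘ g) := g_cpt.comp_left rfl
    have hg₂ : ContDiff ℝ (⊤ : ℕ∞) (Complex.ofRealCLM ∘ g) := by fun_prop
    set φ : SchwartzMap ℝ ℂ := hg₁.toSchwartzMap hg₂ with hφ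
    have hφx : ∀ x, φ x = (g x : ℂ) := fun x => rfl
    calc ∫ x, g x • (𝓕 (h2.toLp f : L2R) : L2R) x
        = Lp.toTemperedDistribution (𝓕 (h2.toLp f : L2R) : L2R) φ := by
          rw [Lp.toTemperedDistribution_apply]
          apply integral_congr_ae
          filter_upwards with x
          rw [hφx]; simp
      _ = Lp.toTemperedDistribution (h2.toLp f : L2R) (𝓕 φ) := by
          rw [← Lp.fourier_toTemperedDistribution_eq]
          rfl
      _ = ∫ x, (𝓕 φ : SchwartzMap ℝ ℂ) x • (h2.toLp f : L2R) x := by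
          rw [Lp.toTemperedDistribution_apply]
      _ = ∫ x, (𝓕 (φ : ℝ → ℂ)) x • f x := by
          apply integral_congr_ae
          filter_upwards [h2.coeFn_toLp] with x hx
          rw [hx]; rfl
      _ = ∫ x, (φ x) • (𝓕 f) x := by
          have := VectorFourier.integral_fourierIntegral_smul_eq_flip (𝕜 := ℝ) (V := ℝ) (W := ℝ)
            (F := ℂ) (e := Real.fourierChar) (μ := volume) (ν := volume) (L := innerₗ ℝ)
            (f := (φ : ℝ → ℂ)) (g := f) Real.continuous_fourierChar continuous_inner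
            φ.integrable h1
          simp only [flip_innerₗ] at this
          exact this
      _ = _ := by
          apply integral_congr_ae
          filter_upwards with x
          rw [hφx]; simp


lemma coeFn_FL {c : ℕ → ℝ} (hc : Summable fun n => |c n|) :
    (FL hc : ℝ → ℂ) =ᵐ[volume] F c := (memLp_F hc 2).coeFn_toLp

lemma fourier_FL {c : ℕ → ℝ} (hc : Summable fun n => |c n|) :
    ((𝓕 (FL hc) : L2R) : ℝ → ℂ) =ᵐ[volume] H c := by
  have h1 : Integrable (F c) := memLp_one_iff_integrable.1 (memLp_F hc 1)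
  filter_upwards [fourier_toLp_ae h1 (memLp_F hc 2)] with ξ hξ
  rw [← fourier_F ξ, ← hξ]
  rfl

lemma norm_FL_sub_le {c c' : ℕ → ℝ} (hc : Summable fun n => |c n|)
    (hc' : Summable fun n => |c' n|) : ‖FL hc - FL hc'‖ ≤ ∑' n, |c n - c' n| := by
  have hv : volume (Set.Ico (0:ℝ) 1) ≠ ⊤ := by simp
  have hb : ‖(indicatorConstLp 2 (measurableSet_Ico (a := (0:ℝ)) (b := 1)) hv (1:ℂ) : L2R)‖ = 1 := by
    rw [norm_indicatorConstLp (by norm_num) (by norm_num)]
    simp
  rw [← mul_one (∑' n, |c n - c' n|), ← hb]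
  apply Lp.norm_le_mul_norm_of_ae_le_mul
  filter_upwards [coeFn_FL hc, coeFn_FL hc', Lp.coeFn_sub (FL hc) (FL hc'),
    indicatorConstLp_coeFn (p := 2) (hs := measurableSet_Ico (a := (0:ℝ)) (b := 1)) (hμs := hv)
      (c := (1:ℂ))] with x h1 h2 h3 h4
  rw [h3, Pi.sub_apply, h1, h2, h4]
  unfold F
  by_cases hx : x ∈ Set.Ico (0:ℝ) 1
  · rw [Set.indicator_of_mem hx, Set.indicator_of_mem hx, Set.indicator_of_mem hx]
    simpa using norm_G_sub_le hc hc' x
  · rw [Set.indicator_of_notMem hx, Set.indicator_of_notMem hx, Set.indicator_of_notMem hx]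
    simp

open ComplexInnerProductSpace in
lemma inner_FL {c c' : ℕ → ℝ} (hc : Summable fun n => |c n|) (hc' : Summable fun n => |c' n|) :
    ⟪FL hc, FL hc'⟫ = H (fun n => c' n - c n) 0 := by
  rw [MeasureTheory.L2.inner_def]
  unfold H
  rw [intervalIntegral.integral_of_le zero_le_one, ← integral_Ico_eq_integral_Ioc,
    ← integral_indicator measurableSet_Ico]
  apply integral_congr_ae
  filter_upwards [coeFn_FL hc, coeFn_FL hc'] with x h1 h2
  rw [h1, h2]
  unfold F K
  by_cases hx : x ∈ Set.Ico (0:ℝ) 1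
  · rw [Set.indicator_of_mem hx, Set.indicator_of_mem hx, Set.indicator_of_mem hx]
    have hph : phase (fun n => c' n - c n) x = phase c' x - phase c x := by
      unfold phase
      rw [← (summable_phase hc' x).tsum_sub (summable_phase hc x)]
      congr 1; ext n; ring
    unfold G
    rw [hph]
    simp only [RCLike.inner_apply, ← Complex.exp_conj]
    rw [← Complex.exp_add, ← Complex.exp_add]
    congr 1
    simp
    ring
  · rw [Set.indicator_of_notMem hx, Set.indicator_of_notMem hx, Set.indicator_of_notMem hx]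
    simp

open ComplexInnerProductSpace in
lemma norm_FL {c : ℕ → ℝ} (hc : Summable fun n => |c n|) : ‖FL hc‖ = 1 := by
  have h : ⟪FL hc, FL hc⟫ = 1 := by
    rw [inner_FL hc hc]
    unfold H K G phase
    simp
  have h2 := inner_self_eq_norm_sq_to_K (𝕜 := ℂ) (FL hc)
  rw [h] at h2
  have h3' : ((‖FL hc‖ ^ 2 : ℝ) : ℂ) = ((1 : ℝ) : ℂ) := by push_cast; exact h2.symm
  have h3 : ‖FL hc‖ ^ 2 = 1 := Complex.ofReal_injective h3'
  nlinarith [norm_nonneg (FL hc)]

open ComplexInnerProductSpace in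
lemma linearIndependent_FL {c c' : ℕ → ℝ} (hc : Summable fun n => |c n|)
    (hc' : Summable fun n => |c' n|) (k : ℕ)
    (hk : Complex.exp (Complex.I * ((c' k - c k : ℝ) : ℂ)) ≠ 1) :
    LinearIndependent ℂ ![FL hc, FL hc'] := by
  rw [LinearIndependent.pair_iff]
  intro α β h
  set r := ⟪FL hc, FL hc'⟫ with hr
  have hr1 : ‖r‖ < 1 := by
    rw [hr, inner_FL hc hc']
    exact norm_H_zero_lt (summable_sub hc' hc) k hk
  have h1 : ⟪FL hc, FL hc⟫ = 1 := by
    rw [inner_self_eq_norm_sq_to_K, norm_FL]; simp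
  have h2 : ⟪FL hc', FL hc'⟫ = 1 := by
    rw [inner_self_eq_norm_sq_to_K, norm_FL]; simp
  have h3 : ⟪FL hc', FL hc⟫ = (starRingEnd ℂ) r := by rw [hr, inner_conj_symm]
  have e1 : ⟪FL hc, α • FL hc + β • FL hc'⟫ = α + β * r := by
    rw [inner_add_right, inner_smul_right, inner_smul_right, h1, mul_one]
  have e2 : ⟪FL hc', α • FL hc + β • FL hc'⟫ = α * (starRingEnd ℂ) r + β := by
    rw [inner_add_right, inner_smul_right, inner_smul_right, h2, h3, mul_one]
  rw [h, inner_zero_right] at e1 e2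
  have ha : α = - (β * r) := by linear_combination -e1
  have hb : β = - (α * (starRingEnd ℂ) r) := by linear_combination -e2
  have na : ‖α‖ = ‖β‖ * ‖r‖ := by rw [ha]; simp
  have nb : ‖β‖ = ‖α‖ * ‖r‖ := by rw [hb]; simp
  have n0 : ‖α‖ = 0 := by
    have h5 : ‖α‖ = ‖α‖ * (‖r‖ * ‖r‖) := by rw [← mul_assoc, ← nb, ← na]
    have h6 : ‖r‖ * ‖r‖ < 1 := by nlinarith [norm_nonneg r]
    nlinarith [norm_nonneg α]
  have n1 : ‖β‖ = 0 := by rw [nb, n0, zero_mul]
  exact ⟨norm_eq_zero.1 n0, norm_eq_zero.1 n1⟩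

/-- The angles `± 2^{-(n+1)}`, with signs prescribed by `s`. -/
noncomputable def cs (s : ℕ → Bool) (n : ℕ) : ℝ := (if s n then 1 else -1) * (1/2) ^ (n + 1)

lemma abs_cs (s : ℕ → Bool) (n : ℕ) : |cs s n| = (1/2) ^ (n + 1) := by
  unfold cs
  rw [abs_mul]
  split_ifs <;> simp

lemma summable_cs (s : ℕ → Bool) : Summable fun n => |cs s n| := by
  simp_rw [abs_cs]
  exact (summable_nat_add_iff 1).2 (summable_geometric_of_lt_one (by norm_num) (by norm_num))

noncomputable def Φ (s : ℕ → Bool) : L2R := FL (summable_cs s)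

lemma continuous_Φ : Continuous Φ := by
  rw [continuous_iff_continuousAt]
  intro s
  rw [ContinuousAt, tendsto_iff_norm_sub_tendsto_zero]
  have hD : Continuous fun t : ℕ → Bool => ∑' n, |cs t n - cs s n| := by
    apply continuous_tsum (u := fun n => 2 * (1/2 : ℝ) ^ (n + 1))
    · intro n
      have : (fun t : ℕ → Bool => |cs t n - cs s n|) =
          (fun b : Bool => |(if b then 1 else -1) * (1/2 : ℝ) ^ (n + 1) - cs s n|) ∘ fun t => t n := by
        funext t; rfl
      rw [this]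
      exact continuous_of_discreteTopology.comp (continuous_apply n)
    · exact ((summable_nat_add_iff 1).2
        (summable_geometric_of_lt_one (by norm_num) (by norm_num))).mul_left 2
    · intro n t
      rw [Real.norm_eq_abs, abs_abs]
      refine (abs_sub _ _).trans ?_
      rw [abs_cs, abs_cs]
      linarith
  have h0 : Tendsto (fun t : ℕ → Bool => ∑' n, |cs t n - cs s n|) (𝓝 s) (𝓝 0) := by
    have := hD.tendsto s
    simpa using this
  exact squeeze_zero (fun _ => norm_nonneg _)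
    (fun t => norm_FL_sub_le (summable_cs t) (summable_cs s)) h0

lemma exp_ne_one_of_ne {s t : ℕ → Bool} {n : ℕ} (h : s n ≠ t n) :
    Complex.exp (Complex.I * ((cs t n - cs s n : ℝ) : ℂ)) ≠ 1 := by
  intro he
  have hv : |cs t n - cs s n| = (1/2 : ℝ) ^ n := by
    unfold cs
    rw [← sub_mul, abs_mul, abs_of_nonneg (by positivity : (0:ℝ) ≤ (1/2) ^ (n + 1)), pow_succ]
    cases hs : s n <;> cases ht : t n
    · exact absurd (hs.trans ht.symm) h
    · norm_num; ring
    · norm_num; ring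
    · exact absurd (hs.trans ht.symm) h
  have hcos : Real.cos (cs t n - cs s n) = 1 := by
    have := congrArg Complex.re he
    rw [mul_comm, Complex.exp_ofReal_mul_I_re] at this
    simpa using this
  have hlt : |cs t n - cs s n| < 2 * Real.pi := by
    rw [hv]
    have : (1/2 : ℝ) ^ n ≤ 1 := pow_le_one₀ (by norm_num) (by norm_num)
    have := Real.pi_gt_three
    linarith
  have h1 := abs_lt.1 hlt
  have := (Real.cos_eq_one_iff_of_lt_of_lt h1.1 h1.2).1 hcos
  rw [this, abs_zero] at hv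
  have : (0:ℝ) < (1/2) ^ n := by positivity
  linarith


lemma isPauliPair_Φ {s t : ℕ → Bool} (h : s ≠ t) : IsPauliPair (Φ s) (Φ t) := by
  obtain ⟨n, hn⟩ := Function.ne_iff.1 h
  refine ⟨linearIndependent_FL _ _ n (exp_ne_one_of_ne hn), ?_, ?_⟩
  · filter_upwards [coeFn_FL (summable_cs s), coeFn_FL (summable_cs t)] with x h1 h2
    unfold Φ
    rw [h1, h2]
    unfold F
    by_cases hx : x ∈ Set.Ico (0:ℝ) 1
    · rw [Set.indicator_of_mem hx, Set.indicator_of_mem hx, norm_G, norm_G]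
    · rw [Set.indicator_of_notMem hx, Set.indicator_of_notMem hx]
  · filter_upwards [fourier_FL (summable_cs s), fourier_FL (summable_cs t)] with ξ h1 h2
    unfold Φ
    rw [h1, h2]
    exact norm_H_eq (summable_cs s) (summable_cs t) (fun n => by rw [abs_cs, abs_cs]) ξ

lemma injective_Φ : Function.Injective Φ := by
  intro s t h
  by_contra hne
  have := (isPauliPair_Φ hne).1
  rw [h] at this
  have h2 := this.injective
  have h3 : (0 : Fin 2) = 1 := h2 (by simp)
  exact absurd h3 (by decide)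

/-- **Main theorem.** There is a Pauli set `P ⊆ L²(ℝ)` all of whose elements have bounded support
(in fact each has modulus `1` a.e. on `[0,1)` and vanishes a.e. elsewhere) such that every element of
`P` is the `L²`-limit of a sequence of other elements of `P`, such that `P` is homeomorphic to the
Cantor space `ℕ → Bool`, and such that `P` is uncountable. In particular `P` is not discrete. -/
theorem result :
    ∃ P : Set L2R, IsPauliSet P ∧ (∀ f ∈ P, HasBoundedSupport f) ∧
      (∀ f ∈ P, ∀ᵐ x : ℝ, ‖f x‖ = if x ∈ Set.Ico (0 : ℝ) 1 then 1 else 0) ∧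
      (∀ f ∈ P, ∃ g : ℕ → L2R, (∀ k, g k ∈ P \ {f}) ∧
        Tendsto (fun k => ‖g k - f‖) atTop (𝓝 0)) ∧
      Nonempty ((ℕ → Bool) ≃ₜ P) ∧ ¬ P.Countable := by
  have hnorm : ∀ s, ∀ᵐ x : ℝ, ‖Φ s x‖ = if x ∈ Set.Ico (0 : ℝ) 1 then 1 else 0 := by
    intro s
    filter_upwards [coeFn_FL (summable_cs s)] with x h1
    unfold Φ
    rw [h1]
    unfold F
    by_cases hx : x ∈ Set.Ico (0:ℝ) 1
    · rw [Set.indicator_of_mem hx, norm_G, if_pos hx]
    · rw [Set.indicator_of_notMem hx, norm_zero, if_neg hx]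
  refine ⟨Set.range Φ, ⟨?_, ?_⟩, ?_, ?_, ?_, ?_, ?_⟩
  · refine ⟨Φ (fun _ => true), ⟨_, rfl⟩, Φ (fun _ => false), ⟨_, rfl⟩, ?_⟩
    intro h
    have := congrFun (injective_Φ h) 0
    simp at this
  · rintro _ ⟨s, rfl⟩ _ ⟨t, rfl⟩ hne
    exact isPauliPair_Φ (fun h => hne (by rw [h]))
  · rintro _ ⟨s, rfl⟩
    refine ⟨1, ?_⟩
    filter_upwards [hnorm s] with x hx hx1
    have hx2 : x ∉ Set.Ico (0:ℝ) 1 := by
      rintro ⟨h1, h2⟩
      rw [abs_of_nonneg h1] at hx1
      linarith
    rw [if_neg hx2] at hx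
    exact norm_eq_zero.1 hx
  · rintro _ ⟨s, rfl⟩
    exact hnorm s
  · rintro _ ⟨s, rfl⟩
    refine ⟨fun k => Φ (Function.update s k (!s k)), fun k => ⟨⟨_, rfl⟩, ?_⟩, ?_⟩
    · intro h
      have h2 := congrFun (injective_Φ h) k
      simp at h2
    · rw [← tendsto_iff_norm_sub_tendsto_zero]
      apply (continuous_Φ.tendsto s).comp
      rw [tendsto_pi_nhds]
      intro j
      apply tendsto_const_nhds.congr'
      filter_upwards [eventually_gt_atTop j] with k hk
      rw [Function.update_of_ne hk.ne]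
  · exact ⟨(continuous_Φ.isClosedEmbedding injective_Φ).isEmbedding.toHomeomorph⟩
  · intro hcount
    have h1 : (Set.univ : Set (ℕ → Bool)).Countable := by
      have := hcount.preimage_of_injOn (f := Φ) injective_Φ.injOn
      rwa [Set.preimage_range] at this
    have h2 : Countable (ℕ → Bool) := Set.countable_univ_iff.1 h1
    obtain ⟨e, he⟩ := exists_surjective_nat (ℕ → Bool)
    obtain ⟨k, hk⟩ := he fun n => !(e n n)
    have h3 := congrFun hk k
    simp at h3

end Pool.Agent.Results.MP_d886ff_an.CantorPauliSet
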